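import Pool.Agent.Helper65.JL.Stmts

/-! Row NRF: the spaces are not reflexive. -/

set_option autoImplicit false

namespace Pool.Agent.Helper18.JL

open Set Filter Topology Pool.Agent.Helper86.TK Pool.Agent.Helper65.JL

lemma nrf_fin (n : ℕ) : {t : T | ∃ j ≤ n, t = nd (fun _ => true) j}.Finite := by
  have h : {t : T | ∃ j ≤ n, t = nd (fun _ => true) j} ⊆
      (Finset.range (n + 1)).image (fun j => nd (fun _ => true) j) := by
    rintro t ⟨j, hj, rfl⟩
    rw [Finset.coe_image]
    exact ⟨j, by simp; omega, rfl⟩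
  exact (Finset.finite_toSet _).subset h

lemma nrf_val (n : ℕ) (t : T) : seg n t = 0 ∨ seg n t = 1 := by
  unfold seg chi
  by_cases h : t ∈ {t : T | ∃ j ≤ n, t = nd (fun _ => true) j}
  · right; rw [indicator_of_mem h]; rfl
  · left; rw [indicator_of_notMem h]

lemma nrf_null (n : ℕ) : Null (seg n) := by
  unfold Null
  refine tendsto_const_nhds.congr' ?_
  filter_upwards [(nrf_fin n).compl_mem_cofinite] with t ht
  unfold seg chi
  rw [indicator_of_notMem ht]

theorem st_NRF (hN : ST_NREFL) (hP : ST_PSE) (hB : ST_BND) (hC : ST_CNT) : ST_NRF := by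
  intro Γ r η hpar hsurj
  have hL := hN (XX r η) hsurj 1
  have hF := hB Γ r η hpar _ hL
  obtain ⟨N₀, hN₀⟩ := hC _ hF
  have hseg : ∀ n, seg n ∈ QL r η (Metric.closedBall (0 : XX r η) 1) := by
    intro n
    apply subset_closure
    obtain ⟨q, hq1, hq2⟩ := hP Γ r η hpar (seg n) (nrf_null n) (nrf_val n)
    refine ⟨nrf_val n, q, hq1, hq2, q, ?_, by simp⟩
    rw [mem_closedBall_zero_iff, Submodule.coe_norm, Prod.norm_def]
    refine max_le ?_ ?_
    · rw [hq1, norm_zero]; exact zero_le_one
    · refine lp.norm_le_of_forall_le zero_le_one ?_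
      intro t
      have h1 : q.1.2 t = seg n t := congrFun hq2 t
      rw [h1]
      rcases nrf_val n t with h | h <;> rw [h] <;> simp
  have := hN₀ (N₀ + 1) (fun n _ => hseg n)
  omega

end Pool.Agent.Helper18.JL
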